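import Pool.Agent.X248.Stars.Fin4

namespace Pool.Agent.X248.Stars
open Finset

def Ineq {n : ℕ} (m : Fin n → ℕ) : Prop := ∀ τ : Fin n → Bool, ∃ s : Fin n → Bool,
  2 * ∑ i, (bif τ i then (bif s i then m i else 0) else m i / 4) ≤ ∑ i, m i + n + 1 ∧
  2 * ∑ i, (bif τ i then (bif s i then 0 else m i) else m i / 4) ≤ ∑ i, m i + n + 1

theorem bound2 {m : Fin 2 → ℕ} (hm : Monotone m) (h : Ineq m) : m 1 ≤ 1000 := by
  have h01 : m 0 ≤ m 1 := hm (by decide)
  obtain ⟨s, h1, h2⟩ := h (fun _ => true)
  obtain ⟨r, h3, h4⟩ := h ![false, true]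
  simp only [Fin.sum_univ_two, Matrix.cons_val_zero, Matrix.cons_val_one, cond_true,
    cond_false] at h1 h2 h3 h4
  generalize m 0 = a at *
  generalize m 1 = b at *
  generalize s 0 = s0 at *
  generalize s 1 = s1 at *
  generalize r 1 = r1 at *
  cases s0 <;> cases s1 <;> cases r1 <;>
    simp only [cond_true, cond_false] at h1 h2 h3 h4 <;> omega

theorem bound3 {m : Fin 3 → ℕ} (hm : Monotone m) (h : Ineq m) : m 2 ≤ 1000 := by
  have h01 : m 0 ≤ m 1 := hm (by decide)
  have h12 : m 1 ≤ m 2 := hm (by decide)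
  obtain ⟨s, h1, h2⟩ := h (fun _ => true)
  obtain ⟨r, h3, h4⟩ := h ![false, false, true]
  have e0 : (![false, false, true] : Fin 3 → Bool) 0 = false := rfl
  have e1 : (![false, false, true] : Fin 3 → Bool) 1 = false := rfl
  have e2 : (![false, false, true] : Fin 3 → Bool) 2 = true := rfl
  simp only [Fin.sum_univ_three, e0, e1, e2, cond_true, cond_false] at h1 h2 h3 h4
  generalize m 0 = a at *
  generalize m 1 = b at *
  generalize m 2 = c at *
  generalize s 0 = s0 at *
  generalize s 1 = s1 at *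
  generalize s 2 = s2 at *
  generalize r 2 = r2 at *
  cases s0 <;> cases s1 <;> cases s2 <;> cases r2 <;>
    simp only [cond_true, cond_false] at h1 h2 h3 h4 <;> omega

theorem bound4 {m : Fin 4 → ℕ} (hm : Monotone m) (h : Ineq m) : m 3 ≤ 1000 := by
  have h01 : m 0 ≤ m 1 := hm (by decide)
  have h12 : m 1 ≤ m 2 := hm (by decide)
  have h23 : m 2 ≤ m 3 := hm (by decide)
  obtain ⟨s, h1, h2⟩ := h (fun _ => true)
  obtain ⟨r, h3, h4⟩ := h ![false, false, false, true]
  obtain ⟨q, h5, h6⟩ := h ![false, true, true, true]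
  have e0 : (![false, false, false, true] : Fin 4 → Bool) 0 = false := rfl
  have e1 : (![false, false, false, true] : Fin 4 → Bool) 1 = false := rfl
  have e2 : (![false, false, false, true] : Fin 4 → Bool) 2 = false := rfl
  have e3 : (![false, false, false, true] : Fin 4 → Bool) 3 = true := rfl
  have g0 : (![false, true, true, true] : Fin 4 → Bool) 0 = false := rfl
  have g1 : (![false, true, true, true] : Fin 4 → Bool) 1 = true := rfl
  have g2 : (![false, true, true, true] : Fin 4 → Bool) 2 = true := rfl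
  have g3 : (![false, true, true, true] : Fin 4 → Bool) 3 = true := rfl
  simp only [Fin.sum_univ_four, e0, e1, e2, e3, g0, g1, g2, g3, cond_true, cond_false]
    at h1 h2 h3 h4 h5 h6
  generalize m 0 = a at *
  generalize m 1 = b at *
  generalize m 2 = c at *
  generalize m 3 = d at *
  generalize s 0 = s0 at *
  generalize s 1 = s1 at *
  generalize s 2 = s2 at *
  generalize s 3 = s3 at *
  generalize q 1 = q1 at *
  generalize q 2 = q2 at *
  generalize q 3 = q3 at *
  generalize r 3 = r3 at *
  have h7 : 2 * d ≤ a + b + c + 19 := by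
    cases r3 <;> simp only [cond_true, cond_false] at h3 h4 <;> omega
  have h5' : 4 * ((bif q1 then b else 0) + (bif q2 then c else 0) + (bif q3 then d else 0)) ≤
      a + 2 * b + 2 * c + 2 * d + 13 := by
    clear h1 h2 h3 h4 h6
    generalize (bif q1 then b else 0) = x1 at *
    generalize (bif q2 then c else 0) = x2 at *
    generalize (bif q3 then d else 0) = x3 at *
    omega
  have h6' : 4 * ((bif q1 then 0 else b) + (bif q2 then 0 else c) + (bif q3 then 0 else d)) ≤
      a + 2 * b + 2 * c + 2 * d + 13 := by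
    clear h1 h2 h3 h4 h5
    generalize (bif q1 then 0 else b) = x1 at *
    generalize (bif q2 then 0 else c) = x2 at *
    generalize (bif q3 then 0 else d) = x3 at *
    omega
  clear h3 h4 h5 h6 e0 e1 e2 e3 g0 g1 g2 g3
  by_contra hbig
  -- the partition must be `{a, d}` against `{b, c}`
  have key : b + c ≤ a + d + 5 ∧ a + d ≤ b + c + 5 ∧ a ≤ 100 ∨
      b + c ≤ a + d + 5 ∧ a + d ≤ b + c + 5 ∧ 100 < a := by
    cases s0 <;> cases s1 <;> cases s2 <;> cases s3 <;>
      simp only [cond_true, cond_false] at h1 h2 <;> omega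
  clear h1 h2
  rcases key with ⟨k1, k2, k3⟩ | ⟨k1, k2, k3⟩
  · omega
  · cases q1 <;> cases q2 <;> cases q3 <;> simp only [cond_true, cond_false] at h5' h6' <;> omega

end Pool.Agent.X248.Stars
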