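import Pool.Agent.X248.Stars.Perm

namespace Pool.Agent.X248.Stars
open Finset

/-- the unordered pair `{u, v}` is the unordered pair `{p, x}` -/
def hit (u v p x : ℕ) : Prop := (u = p ∧ v = x) ∨ (u = x ∧ v = p)

instance (u v p x : ℕ) : Decidable (hit u v p x) := by unfold hit; infer_instance

def col (α β : Fin 5 → ℕ) (i : Fin 5) (s : Bool) : ℕ := bif s then β i else α i

/-- the number of leaves forced to the colour `x` -/
def G (t : ℕ) (α β : Fin 5 → ℕ) (u v : Fin 5 → ℕ → ℕ) (c : Fin 5 → Bool) (x : ℕ) : ℕ :=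
  ∑ i : Fin 5, ∑ j ∈ Finset.range (kk i * t), (if hit (u i j) (v i j) (col α β i (c i)) x then 1 else 0)

theorem col_ne {α β : Fin 5 → ℕ} (h : ∀ i, α i ≠ β i) (i : Fin 5) (s : Bool) :
    col α β i s ≠ col α β i (!s) := by
  cases s
  · exact h i
  · exact (h i).symm

theorem sum_kk (t : ℕ) : ∑ i : Fin 5, kk i * t = 12 * t := by
  rw [Fin.sum_univ_five]
  have e0 : kk 0 = 3 := rfl
  have e1 : kk 1 = 3 := rfl
  have e2 : kk 2 = 2 := rfl
  have e3 : kk 3 = 2 := rfl
  have e4 : kk 4 = 2 := rfl
  rw [e0, e1, e2, e3, e4]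
  ring

theorem two_bound {t : ℕ} {α β : Fin 5 → ℕ} {u v : Fin 5 → ℕ → ℕ}
    (hab : ∀ i, α i ≠ β i) {c : Fin 5 → Bool} {x y : ℕ}
    (h1 : 6 * t < G t α β u v c x) (h2 : 6 * t < G t α β u v (fun i => !c i) y) :
    ∃ i, x = col α β i (!c i) ∧ y = col α β i (c i) := by
  by_contra hno
  push Not at hno
  have hle : G t α β u v c x + G t α β u v (fun i => !c i) y ≤ 12 * t := by
    unfold G
    rw [← Finset.sum_add_distrib, ← sum_kk]
    refine Finset.sum_le_sum fun i _ => ?_
    rw [← Finset.sum_add_distrib]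
    refine (Finset.sum_le_card_nsmul _ _ 1 fun j _ => ?_).trans (by simp)
    have h3 := hno i
    have h4 := col_ne hab i (c i)
    beta_reduce
    split_ifs with h5 h6 h6
    · exfalso
      unfold hit at h5 h6
      rcases h5 with h5 | h5 <;> rcases h6 with h6 | h6 <;> omega
    · omega
    · omega
    · omega
  omega

theorem meet {t : ℕ} {α β : Fin 5 → ℕ} {u v : Fin 5 → ℕ → ℕ}
    (hab : ∀ i, α i ≠ β i) {c c' : Fin 5 → Bool} {x y x' y' : ℕ}
    (h1 : 6 * t < G t α β u v c x) (h2 : 6 * t < G t α β u v (fun i => !c i) y)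
    (h3 : 6 * t < G t α β u v c' x') (h4 : 6 * t < G t α β u v (fun i => !c' i) y') :
    x = x' ∨ x = y' ∨ y = x' ∨ y = y' := by
  by_contra hno
  push Not at hno
  obtain ⟨n1, n2, n3, n4⟩ := hno
  have hle : G t α β u v c x + G t α β u v (fun i => !c i) y +
      (G t α β u v c' x' + G t α β u v (fun i => !c' i) y') ≤ 24 * t := by
    unfold G
    rw [← Finset.sum_add_distrib, ← Finset.sum_add_distrib, ← Finset.sum_add_distrib]
    have h24 : 24 * t = ∑ i : Fin 5, (kk i * t) * 2 := by
      rw [← Finset.sum_mul, sum_kk]; ring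
    rw [h24]
    refine Finset.sum_le_sum fun i _ => ?_
    rw [← Finset.sum_add_distrib, ← Finset.sum_add_distrib, ← Finset.sum_add_distrib]
    refine (Finset.sum_le_card_nsmul _ _ 2 fun j _ => ?_).trans (by simp)
    have k1 := col_ne hab i (c i)
    have k2 : (col α β i (c' i) = col α β i (c i) ∧ col α β i (!c' i) = col α β i (!c i)) ∨
        (col α β i (c' i) = col α β i (!c i) ∧ col α β i (!c' i) = col α β i (c i)) := by
      cases c i <;> cases c' i <;> simp
    beta_reduce
    generalize col α β i (c i) = p at *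
    generalize col α β i (!c i) = q at *
    generalize col α β i (c' i) = p' at *
    generalize col α β i (!c' i) = q' at *
    generalize u i j = a at *
    generalize v i j = b at *
    by_cases g1 : hit a b p x <;> by_cases g2 : hit a b q y <;>
      by_cases g3 : hit a b p' x' <;> by_cases g4 : hit a b q' y' <;>
      simp only [g1, g2, g3, g4, if_true, if_false] <;> try omega
    all_goals
      exfalso
      unfold hit at g1 g2 g3 g4
      rcases k2 with ⟨k2, k3⟩ | ⟨k2, k3⟩ <;> subst k2 <;> subst k3 <;> omega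
  omega

end Pool.Agent.X248.Stars
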