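import Mathlib

namespace Pool.Agent.X248.Stars

/-- `G` is equitably `k`-choosable: for every assignment of lists of exactly `k` colours (natural
numbers) there is a proper list colouring using each colour on at most `⌈|V(G)| / k⌉` vertices -/
def EquitablyChoosable {V : Type} [Fintype V] (G : SimpleGraph V) (k : ℕ) : Prop :=
  ∀ L : V → Finset ℕ, (∀ v, (L v).card = k) →
    ∃ f : V → ℕ, (∀ v, f v ∈ L v) ∧ (∀ v w, G.Adj v w → f v ≠ f w) ∧
      ∀ x, (Finset.univ.filter (fun v => f v = x)).card ≤ ⌈(Fintype.card V : ℚ) / k⌉₊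

/-- the disjoint union of the stars `K_{1, m i}`, `i < n`: the vertex `⟨i, none⟩` is the centre of
the `i`-th star and the vertices `⟨i, some j⟩` are its leaves -/
def starUnion {n : ℕ} (m : Fin n → ℕ) : SimpleGraph (Σ i : Fin n, Option (Fin (m i))) where
  Adj a b := a.1 = b.1 ∧ ((a.2.isNone ∧ b.2.isSome) ∨ (a.2.isSome ∧ b.2.isNone))
  symm := ⟨fun _ _ h => ⟨h.1.symm, h.2.elim (fun h => Or.inr ⟨h.2, h.1⟩) fun h => Or.inl ⟨h.2, h.1⟩⟩⟩
  loopless := ⟨fun a h => by
    rcases h.2 with h | h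
    · rcases h with ⟨h1, h2⟩
      cases ha : a.2 <;> simp [ha] at h1 h2
    · rcases h with ⟨h1, h2⟩
      cases ha : a.2 <;> simp [ha] at h1 h2⟩

end Pool.Agent.X248.Stars
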