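import Pool.Agent.X248.Stars.Defs

namespace Pool.Agent.X248.Stars
open Finset

/-- the bad list assignment: on stars with `τ i` all lists are `{0, 1}`; on the other stars the
centre has list `{2, 3}` and the leaves have lists `{2,0}, {2,1}, {3,0}, {3,1}` -/
def badL {n : ℕ} (m : Fin n → ℕ) (τ : Fin n → Bool) (v : Σ i : Fin n, Option (Fin (m i))) :
    Finset ℕ :=
  if τ v.1 then {0, 1} else
    match v.2 with
    | none => {2, 3}
    | some j => if j.val % 4 = 0 then {2, 0} else if j.val % 4 = 1 then {2, 1} else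
      if j.val % 4 = 2 then {3, 0} else {3, 1}

theorem badL_card {n : ℕ} (m : Fin n → ℕ) (τ : Fin n → Bool) (v) : (badL m τ v).card = 2 := by
  obtain ⟨i, o⟩ := v
  unfold badL
  cases o <;> simp only <;> split_ifs <;> rfl

theorem count_mod (N r : ℕ) (hr : r < 4) :
    N / 4 ≤ ((Finset.univ : Finset (Fin N)).filter (fun j => j.val % 4 = r)).card := by
  have hinj : Function.Injective (fun q : Fin (N / 4) => (⟨4 * q.val + r, by
      have := q.2; omega⟩ : Fin N)) := by
    intro a b h
    simp only [Fin.mk.injEq] at h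
    apply Fin.ext
    omega
  have h1 := Finset.card_le_card (s := Finset.univ.image (fun q : Fin (N / 4) =>
    (⟨4 * q.val + r, by have := q.2; omega⟩ : Fin N)))
    (t := (Finset.univ : Finset (Fin N)).filter (fun j => j.val % 4 = r)) (by
      intro j hj
      rw [Finset.mem_image] at hj
      obtain ⟨q, _, hq⟩ := hj
      rw [Finset.mem_filter]
      refine ⟨Finset.mem_univ _, ?_⟩
      rw [← hq]
      simp only
      omega)
  rw [Finset.card_image_of_injective _ hinj, Finset.card_univ, Fintype.card_fin] at h1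
  exact h1

theorem ineq {n : ℕ} {m : Fin n → ℕ} (h : EquitablyChoosable (starUnion m) 2)
    (τ : Fin n → Bool) : ∃ s : Fin n → Bool,
      2 * ∑ i, (bif τ i then (bif s i then m i else 0) else m i / 4) ≤ ∑ i, m i + n + 1 ∧
      2 * ∑ i, (bif τ i then (bif s i then 0 else m i) else m i / 4) ≤ ∑ i, m i + n + 1 := by
  obtain ⟨f, hf1, hf2, hf3⟩ := h (badL m τ) (badL_card m τ)
  have hcap : 2 * ⌈(Fintype.card (Σ i : Fin n, Option (Fin (m i))) : ℚ) / ((2 : ℕ) : ℚ)⌉₊ ≤
      ∑ i, m i + n + 1 := by
    have hc : Fintype.card (Σ i : Fin n, Option (Fin (m i))) = ∑ i, m i + n := by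
      rw [Fintype.card_sigma]
      simp only [Fintype.card_option, Fintype.card_fin]
      rw [Finset.sum_add_distrib]
      simp
    rw [hc]
    have h1 := Nat.ceil_lt_add_one (a := ((∑ i, m i + n : ℕ) : ℚ) / ((2 : ℕ) : ℚ)) (by positivity)
    have h2 : ((2 * ⌈((∑ i, m i + n : ℕ) : ℚ) / ((2 : ℕ) : ℚ)⌉₊ : ℕ) : ℚ) <
        ((∑ i, m i + n + 2 : ℕ) : ℚ) := by
      push_cast at h1 ⊢
      linarith
    have h3 := Nat.cast_lt.1 h2
    omega
  have hcount : ∀ x, ∑ i : Fin n, ∑ j : Fin (m i), (if f ⟨i, some j⟩ = x then 1 else 0) ≤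
      ⌈(Fintype.card (Σ i : Fin n, Option (Fin (m i))) : ℚ) / ((2 : ℕ) : ℚ)⌉₊ := by
    intro x
    refine le_trans ?_ (hf3 x)
    rw [Finset.card_filter, Fintype.sum_sigma]
    refine Finset.sum_le_sum fun i _ => ?_
    rw [Fintype.sum_option]
    omega
  have hadj : ∀ (i : Fin n) (j : Fin (m i)), f ⟨i, none⟩ ≠ f ⟨i, some j⟩ := by
    intro i j
    apply hf2
    refine ⟨rfl, Or.inl ⟨rfl, rfl⟩⟩
  -- bounds for one star
  have hU : ∀ i, τ i = false → ∀ x, x < 2 →
      m i / 4 ≤ ∑ j : Fin (m i), (if f ⟨i, some j⟩ = x then 1 else 0) := by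
    intro i hi x hx
    have hc := hf1 ⟨i, none⟩
    simp only [badL, hi] at hc
    have hc' : f ⟨i, none⟩ = 2 ∨ f ⟨i, none⟩ = 3 := by simpa using hc
    rw [← Finset.card_filter]
    rcases hc' with hc' | hc'
    · refine (count_mod (m i) x (by omega)).trans (Finset.card_le_card ?_)
      intro j hj
      rw [Finset.mem_filter] at hj ⊢
      refine ⟨Finset.mem_univ _, ?_⟩
      have h1 := hf1 ⟨i, some j⟩
      have h2 := hadj i j
      rw [hc'] at h2
      have hx' : x = 0 ∨ x = 1 := by omega
      rcases hx' with rfl | rfl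
      · simp only [badL, hi, hj.2] at h1
        have h3 : f ⟨i, some j⟩ = 2 ∨ f ⟨i, some j⟩ = 0 := by simpa using h1
        rcases h3 with h3 | h3
        · exact absurd h3.symm h2
        · exact h3
      · simp only [badL, hi, hj.2] at h1
        have h3 : f ⟨i, some j⟩ = 2 ∨ f ⟨i, some j⟩ = 1 := by simpa using h1
        rcases h3 with h3 | h3
        · exact absurd h3.symm h2
        · exact h3
    · refine (count_mod (m i) (x + 2) (by omega)).trans (Finset.card_le_card ?_)
      intro j hj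
      rw [Finset.mem_filter] at hj ⊢
      refine ⟨Finset.mem_univ _, ?_⟩
      have h1 := hf1 ⟨i, some j⟩
      have h2 := hadj i j
      rw [hc'] at h2
      have hx' : x = 0 ∨ x = 1 := by omega
      rcases hx' with rfl | rfl
      · simp only [badL, hi, hj.2] at h1
        have h3 : f ⟨i, some j⟩ = 3 ∨ f ⟨i, some j⟩ = 0 := by simpa using h1
        rcases h3 with h3 | h3
        · exact absurd h3.symm h2
        · exact h3
      · simp only [badL, hi, hj.2] at h1
        have h3 : f ⟨i, some j⟩ = 3 ∨ f ⟨i, some j⟩ = 1 := by simpa using h1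
        rcases h3 with h3 | h3
        · exact absurd h3.symm h2
        · exact h3
  have hT : ∀ i, τ i = true → ∀ x y, ((x = 0 ∧ y = 1) ∨ (x = 1 ∧ y = 0)) → f ⟨i, none⟩ = y →
      m i ≤ ∑ j : Fin (m i), (if f ⟨i, some j⟩ = x then 1 else 0) := by
    intro i hi x y hxy hy
    have : ∀ j : Fin (m i), f ⟨i, some j⟩ = x := by
      intro j
      have h1 := hf1 ⟨i, some j⟩
      have h2 := hadj i j
      simp only [badL, hi, if_true] at h1
      have h3 : f ⟨i, some j⟩ = 0 ∨ f ⟨i, some j⟩ = 1 := by simpa using h1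
      omega
    simp [this]
  have hTc : ∀ i, τ i = true → f ⟨i, none⟩ = 0 ∨ f ⟨i, none⟩ = 1 := by
    intro i hi
    have h1 := hf1 ⟨i, none⟩
    simp only [badL, hi, if_true] at h1
    simpa using h1
  refine ⟨fun i => decide (f ⟨i, none⟩ = 0), ?_, ?_⟩
  · refine le_trans ?_ hcap
    refine Nat.mul_le_mul_left 2 (le_trans ?_ (hcount 1))
    refine Finset.sum_le_sum fun i _ => ?_
    cases hi : τ i
    · exact hU i hi 1 (by omega)
    · simp only [cond_true]
      by_cases h0 : f ⟨i, none⟩ = 0
      · simp only [h0, decide_true, cond_true]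
        exact hT i hi 1 0 (Or.inr ⟨rfl, rfl⟩) h0
      · simp [h0]
  · refine le_trans ?_ hcap
    refine Nat.mul_le_mul_left 2 (le_trans ?_ (hcount 0))
    refine Finset.sum_le_sum fun i _ => ?_
    cases hi : τ i
    · exact hU i hi 0 (by omega)
    · simp only [cond_true]
      by_cases h0 : f ⟨i, none⟩ = 0
      · simp [h0]
      · simp only [h0, decide_false, cond_false]
        exact hT i hi 0 1 (Or.inl ⟨rfl, rfl⟩) ((hTc i hi).resolve_left h0)

end Pool.Agent.X248.Stars
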