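import Mathlib
import Pool.Agent.X248.Stars.Tab0
import Pool.Agent.X248.Stars.Tab1

/-! The abstract game: five stars with `kk i * t` leaves each; a leaf is described by a code
`φ = 4 * φ₀ + φ₁` where `φₛ` is the class (0,1,2, or 3 for none) of the colour to which the leaf is
forced when the centre takes side `s`. -/

namespace Pool.Agent.X248.Stars

def sel (φ : ℕ) (s : Bool) : ℕ := bif s then φ % 4 else φ / 4

def kk : Fin 5 → ℕ := ![3, 3, 2, 2, 2]

def cf (c : ℕ) : Fin 5 → Bool := fun i => Nat.testBit c i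

/-- the number of leaves forced into class `x` -/
def F (t : ℕ) (κ : Fin 5 → ℕ → ℕ) (c : Fin 5 → Bool) (x : ℕ) : ℕ :=
  ∑ i : Fin 5, ∑ j ∈ Finset.range (kk i * t), (bif Nat.beq (sel (κ i j) (c i)) x then 1 else 0)

/-- allowed codes of leaves -/
def alw (m : Bool) (ty : ℕ) : List ℕ :=
  match m, ty with
  | _, 0 => [3, 7, 11, 12, 13, 14]
  | false, 1 => [7, 11, 12, 14, 4]
  | false, 2 => [7, 11, 12, 13, 8]
  | false, _ => [3, 11, 12, 13, 9]
  | true, 1 => [7, 11, 12, 13, 14, 4]
  | true, 2 => [7, 11, 12, 13, 14, 8]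
  | true, _ => [3, 7, 11, 12, 13, 14, 9]

def wsum (φ i : ℕ) : List (ℕ × ℕ) → ℕ → ℕ
  | [], _ => 0
  | cx :: p, code =>
    (bif Nat.beq (sel φ (Nat.testBit cx.1 i)) cx.2 then code % 64 else 0) +
      wsum φ i p (code / 64)

def tot : List (ℕ × ℕ) → ℕ → ℕ
  | [], _ => 0
  | _ :: p, code => code % 64 + tot p (code / 64)

def dropc : List (ℕ × ℕ) → ℕ → ℕ
  | [], code => code
  | _ :: p, code => dropc p (code / 64)

def mx (f : ℕ → ℕ) : List ℕ → ℕ
  | [] => 0
  | a :: l => bif Nat.ble (f a) (mx f l) then mx f l else f a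

def leafOK (m : Bool) (a b c d e : ℕ) (p : List (ℕ × ℕ)) (code : ℕ) : Bool :=
  Nat.ble (3 * mx (fun φ => wsum φ 0 p code) (alw m a) + 3 * mx (fun φ => wsum φ 1 p code) (alw m b)
    + 2 * mx (fun φ => wsum φ 2 p code) (alw m c) + 2 * mx (fun φ => wsum φ 3 p code) (alw m d)
    + 2 * mx (fun φ => wsum φ 4 p code) (alw m e)) (6 * tot p code) && Nat.blt 0 (tot p code)

def run (m : Bool) (a b c d e : ℕ) : ℕ → List (ℕ × ℕ) → ℕ → ℕ
  | 0, _, _ => 0
  | f + 1, p, code =>
    bif Nat.beq (code % 64) 0 then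
      (bif leafOK m a b c d e p (code / 64) then dropc p (code / 64) + 1 else 0)
    else
      bif m then
        (match run m a b c d e f (((code % 64 - 1) ^^^ 31, 1) :: (code % 64 - 1, 0) :: p)
            (code / 64) with
        | 0 => 0
        | r + 1 =>
          match run m a b c d e f (((code % 64 - 1) ^^^ 31, 2) :: (code % 64 - 1, 0) :: p) r with
          | 0 => 0
          | r + 1 =>
            match run m a b c d e f (((code % 64 - 1) ^^^ 31, 0) :: (code % 64 - 1, 1) :: p) r with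
            | 0 => 0
            | r + 1 => run m a b c d e f (((code % 64 - 1) ^^^ 31, 0) :: (code % 64 - 1, 2) :: p) r)
      else
        (match run m a b c d e f ((code % 64 - 1, 0) :: p) (code / 64) with
        | 0 => 0
        | r + 1 =>
          match run m a b c d e f ((code % 64 - 1, 1) :: p) r with
          | 0 => 0
          | r + 1 => run m a b c d e f ((code % 64 - 1, 2) :: p) r)

def entryOK (m : Bool) (e : ℕ × ℕ) : Bool :=
  Nat.blt 0 (run m (e.1 / 256) (e.1 / 64 % 4) (e.1 / 16 % 4) (e.1 / 4 % 4) (e.1 % 4) 20 [] e.2)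

theorem tab0_ok : tab0.all (entryOK false) = true := by decide +kernel

theorem tab1_ok : tab1.all (entryOK true) = true := by decide +kernel

end Pool.Agent.X248.Stars
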