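import Pool.Agent.X248.Stars.Lift

namespace Pool.Agent.X248.Stars
open Finset

theorem col_eq (α β : Fin 5 → ℕ) (i : Fin 5) (s : Bool) :
    (col α β i s = α i ∧ col α β i (!s) = β i) ∨ (col α β i s = β i ∧ col α β i (!s) = α i) := by
  cases s
  · left; exact ⟨rfl, rfl⟩
  · right; exact ⟨rfl, rfl⟩

theorem triangle_case {t : ℕ} {α β : Fin 5 → ℕ} (hab : ∀ i, α i ≠ β i) {u v : Fin 5 → ℕ → ℕ}
    (huv : ∀ i j, u i j ≠ v i j) (X : (Fin 5 → Bool) → ℕ)
    (hX : ∀ c, 6 * t < G t α β u v c (X c)) {p q r : ℕ}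
    (h : ∀ c, X c = p ∨ X c = q ∨ X c = r) : False := by
  let cls : ℕ → ℕ := fun z => if z = p then 0 else if z = q then 1 else if z = r then 2 else 3
  have hc : ∀ z, cls z ≤ 3 := by
    intro z
    simp only [cls]
    split_ifs <;> omega
  have hi' : ∀ z w, cls z = cls w → cls z < 3 → z = w := by
    intro z w h1 h2
    simp only [cls] at h1 h2
    split_ifs at h1 h2 <;> omega
  have hi : Inj false cls := by
    unfold Inj
    simpa using hi'
  refine no_bad cls α β u v false t hc hi hab ?_ huv ?_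
  · intro i h1
    by_contra h2
    have h3 := hc (α i)
    exact hab i (hi' _ _ h1 (by omega))
  · intro c
    simp only [Bool.false_eq_true, if_false]
    have h1 := hX (fun i => xor (c i) (fl cls α β i))
    have h3 : ∀ x, X (fun i => xor (c i) (fl cls α β i)) = x → cls x < 3 →
        6 * t < F t (κf cls α β u v) c (cls x) := by
      intro x hx hlt
      rw [hx] at h1
      exact h1.trans_le (G_le_F cls α β u v t hc huv c hlt)
    have hcl : cls (X (fun i => xor (c i) (fl cls α β i))) < 3 := by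
      rcases h (fun i => xor (c i) (fl cls α β i)) with h2 | h2 | h2
      · rw [h2]; simp only [cls]; split_ifs <;> omega
      · rw [h2]; simp only [cls]; split_ifs <;> omega
      · rw [h2]; simp only [cls]; split_ifs <;> omega
    have h4 := h3 _ rfl hcl
    generalize cls (X (fun i => xor (c i) (fl cls α β i))) = w at *
    interval_cases w
    · left; exact h4
    · right; left; exact h4
    · right; right; exact h4

theorem ends_ne {a b p z z' : ℕ} (h : (a = p ∧ b = z) ∨ (a = z ∧ b = p))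
    (h' : (a = p ∧ b = z') ∨ (a = z' ∧ b = p)) (hzz : z ≠ z') (hp : z ≠ p) : False := by
  rcases h with h | h <;> rcases h' with h' | h'
  · exact hzz (h.2.symm.trans h'.2)
  · exact hp (h.2.symm.trans h'.2)
  · exact hp (h.1.symm.trans h'.1)
  · exact hzz (h.1.symm.trans h'.1)

theorem ends_p {a b p z : ℕ} (h : (a = p ∧ b = z) ∨ (a = z ∧ b = p)) (ha : a ≠ p) (hb : b ≠ p) :
    False := by
  rcases h with h | h
  · exact ha h.1
  · exact hb h.2

theorem pig (a b c d e f : Fin 5) (hn : [a, b, c, d, e, f].Nodup) : False := by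
  have := hn.length_le_card
  simp at this

theorem star_b {α β : Fin 5 → ℕ} (hab : ∀ i, α i ≠ β i) {p : ℕ} (Y : ℕ → Prop)
    (hs : ∀ z, Y z → z ≠ p → ∃ s, (α s = p ∧ β s = z) ∨ (α s = z ∧ β s = p)) :
    ∃ b, ∀ i, Y (α i) → α i ≠ p → Y (β i) → β i ≠ p → α i = b ∨ β i = b := by
  by_cases h : ∃ i, Y (α i) ∧ α i ≠ p ∧ Y (β i) ∧ β i ≠ p
  · obtain ⟨i, i1, i2, i3, i4⟩ := h
    by_contra hno
    push Not at hno
    obtain ⟨j, j1, j2, j3, j4, j5, j6⟩ := hno (α i)
    obtain ⟨l, l1, l2, l3, l4, l5, l6⟩ := hno (β i)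
    have hij := hab i
    have hjj := hab j
    obtain ⟨s1, h1⟩ := hs _ i1 i2
    obtain ⟨s2, h2⟩ := hs _ i3 i4
    have dij : i ≠ j := by rintro rfl; exact j5 rfl
    have dil : i ≠ l := by rintro rfl; exact l6 rfl
    have ds12 : s1 ≠ s2 := by rintro rfl; exact ends_ne h1 h2 hij i2
    have np : ∀ {s m : Fin 5} {z : ℕ}, ((α s = p ∧ β s = z) ∨ (α s = z ∧ β s = p)) → α m ≠ p →
        β m ≠ p → s ≠ m := by
      intro s m z h1 h2 h3 h4
      subst h4
      exact ends_p h1 h2 h3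
    have ds1i : s1 ≠ i := np h1 i2 i4
    have ds1j : s1 ≠ j := np h1 j2 j4
    have ds1l : s1 ≠ l := np h1 l2 l4
    have ds2i : s2 ≠ i := np h2 i2 i4
    have ds2j : s2 ≠ j := np h2 j2 j4
    have ds2l : s2 ≠ l := np h2 l2 l4
    have ne : ∀ {s s' : Fin 5} {z z' : ℕ}, ((α s = p ∧ β s = z) ∨ (α s = z ∧ β s = p)) →
        ((α s' = p ∧ β s' = z') ∨ (α s' = z' ∧ β s' = p)) → z ≠ z' → z ≠ p → s ≠ s' := by
      intro s s' z z' h1 h2 h3 h4 h5
      subst h5
      exact ends_ne h1 h2 h3 h4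
    by_cases hjl : j = l
    · subst hjl
      obtain ⟨s3, h3⟩ := hs _ j1 j2
      obtain ⟨s4, h4⟩ := hs _ j3 j4
      have d1 : s3 ≠ s4 := ne h3 h4 hjj j2
      have d2 : s3 ≠ s1 := ne h3 h1 j5 j2
      have d3 : s3 ≠ s2 := ne h3 h2 l5 j2
      have d4 : s4 ≠ s1 := ne h4 h1 j6 j4
      have d5 : s4 ≠ s2 := ne h4 h2 l6 j4
      have d6 : s3 ≠ i := np h3 i2 i4
      have d7 : s3 ≠ j := np h3 j2 j4
      have d8 : s4 ≠ i := np h4 i2 i4
      have d9 : s4 ≠ j := np h4 j2 j4
      refine pig s1 s2 s3 s4 i j ?_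
      simp [ds12, ds1i, ds1j, ds2i, ds2j, dij, d1, d2.symm, d3.symm, d4.symm, d5.symm, d6, d7, d8,
        d9]
    · have hz : ∃ z, Y z ∧ z ≠ p ∧ z ≠ α i ∧ z ≠ β i := by
        by_cases hb : α j = β i
        · exact ⟨β j, j3, j4, j6, fun h => hjj (hb.trans h.symm)⟩
        · exact ⟨α j, j1, j2, j5, hb⟩
      obtain ⟨z, z1, z2, z3, z4⟩ := hz
      obtain ⟨s3, h3⟩ := hs _ z1 z2
      have d2 : s3 ≠ s1 := ne h3 h1 z3 z2
      have d3 : s3 ≠ s2 := ne h3 h2 z4 z2
      have d6 : s3 ≠ i := np h3 i2 i4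
      have d7 : s3 ≠ j := np h3 j2 j4
      have d8 : s3 ≠ l := np h3 l2 l4
      refine pig s1 s2 s3 i j l ?_
      simp [ds12, ds1i, ds1j, ds1l, ds2i, ds2j, ds2l, dij, dil, hjl, d2.symm, d3.symm, d6, d7, d8]
  · refine ⟨0, fun i h1 h2 h3 h4 => ?_⟩
    exact absurd ⟨i, h1, h2, h3, h4⟩ h

theorem tri {x y p q r : ℕ} (hpq : p ≠ q) (hpr : p ≠ r) (hqr : q ≠ r)
    (h1 : x = p ∨ x = q ∨ y = p ∨ y = q) (h2 : x = q ∨ x = r ∨ y = q ∨ y = r)
    (h3 : x = p ∨ x = r ∨ y = p ∨ y = r) : x = p ∨ x = q ∨ x = r := by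
  by_contra hx
  push Not at hx
  obtain ⟨a, b, c⟩ := hx
  have h1' : y = p ∨ y = q := by tauto
  have h2' : y = q ∨ y = r := by tauto
  have h3' : y = p ∨ y = r := by tauto
  rcases h1' with h | h
  · rcases h2' with g | g
    · exact hpq (h.symm.trans g)
    · exact hpr (h.symm.trans g)
  · rcases h3' with g | g
    · exact hpq (g.symm.trans h)
    · exact hqr (h.symm.trans g)

/-- three pairs `{p,q}`, `{a,b}` (avoiding `p`), `{c,d}` (avoiding `q`), pairwise meeting -/
theorem tri_exists {p q a b c d : ℕ} (hpq : p ≠ q) (ha : a ≠ p) (hb : b ≠ p) (hc : c ≠ q)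
    (hd : d ≠ q)
    (h1 : p = a ∨ p = b ∨ q = a ∨ q = b) (h2 : p = c ∨ p = d ∨ q = c ∨ q = d)
    (h3 : a = c ∨ a = d ∨ b = c ∨ b = d) :
    ∃ r, p ≠ r ∧ ((a = q ∧ b = r) ∨ (a = r ∧ b = q)) ∧ ((c = p ∧ d = r) ∨ (c = r ∧ d = p)) := by
  have h1' : q = a ∨ q = b := by
    rcases h1 with h | h | h | h
    · exact absurd h.symm ha
    · exact absurd h.symm hb
    · exact Or.inl h
    · exact Or.inr h
  have h2' : p = c ∨ p = d := by
    rcases h2 with h | h | h | h
    · exact Or.inl h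
    · exact Or.inr h
    · exact absurd h.symm hc
    · exact absurd h.symm hd
  rcases h1' with rfl | rfl <;> rcases h2' with rfl | rfl
  · refine ⟨b, hb.symm, Or.inl ⟨rfl, rfl⟩, Or.inl ⟨rfl, ?_⟩⟩
    rcases h3 with h | h | h | h
    · exact absurd h.symm hc
    · exact absurd h.symm hd
    · exact absurd h hb
    · exact h.symm
  · refine ⟨b, hb.symm, Or.inl ⟨rfl, rfl⟩, Or.inr ⟨?_, rfl⟩⟩
    rcases h3 with h | h | h | h
    · exact absurd h.symm hc
    · exact absurd h.symm hd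
    · exact h.symm
    · exact absurd h hb
  · refine ⟨a, ha.symm, Or.inr ⟨rfl, rfl⟩, Or.inl ⟨rfl, ?_⟩⟩
    rcases h3 with h | h | h | h
    · exact absurd h ha
    · exact h.symm
    · exact absurd h.symm hc
    · exact absurd h.symm hd
  · refine ⟨a, ha.symm, Or.inr ⟨rfl, rfl⟩, Or.inr ⟨?_, rfl⟩⟩
    rcases h3 with h | h | h | h
    · exact h.symm
    · exact absurd h ha
    · exact absurd h.symm hc
    · exact absurd h.symm hd


theorem star_case {t : ℕ} {α β : Fin 5 → ℕ} (hab : ∀ i, α i ≠ β i) {u v : Fin 5 → ℕ → ℕ}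
    (huv : ∀ i j, u i j ≠ v i j) (X : (Fin 5 → Bool) → ℕ)
    (hX : ∀ c, 6 * t < G t α β u v c (X c)) {p : ℕ}
    (h : ∀ c, X c = p ∨ X (fun i => !c i) = p) : False := by
  classical
  have h1 : ∀ c, ∃ i, X c = col α β i (!c i) ∧ X (fun i => !c i) = col α β i (c i) :=
    fun c => two_bound hab (hX c) (hX _)
  have hne : ∀ c, X c ≠ X (fun i => !c i) := by
    intro c
    obtain ⟨i, hi1, hi2⟩ := h1 c
    rw [hi1, hi2]
    exact (col_ne hab i (c i)).symm
  have hs : ∀ z, (∃ c, X c = z) → z ≠ p →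
      ∃ s, (α s = p ∧ β s = z) ∨ (α s = z ∧ β s = p) := by
    rintro z ⟨c, hc⟩ hz
    obtain ⟨i, hi1, hi2⟩ := h1 c
    have h2 : X (fun i => !c i) = p := by
      rcases h c with h2 | h2
      · exact absurd (hc.symm.trans h2) hz
      · exact h2
    have h3 := col_eq α β i (c i)
    refine ⟨i, ?_⟩
    omega
  obtain ⟨b, hb⟩ := star_b hab (p := p) (fun z => ∃ c, X c = z) hs
  let cls : ℕ → ℕ := fun z => if z = p then 0 else if z = b then 2 else
    if ∃ c, X c = z then 1 else 3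
  have hc : ∀ z, cls z ≤ 3 := by
    intro z
    simp only [cls]
    split_ifs <;> omega
  have k0 : ∀ z, cls z = 0 → z = p := by
    intro z hz
    simp only [cls] at hz
    split_ifs at hz with g1 g2 g3
    all_goals first | exact g1 | omega
  have k2 : ∀ z, cls z = 2 → z = b := by
    intro z hz
    simp only [cls] at hz
    split_ifs at hz with g1 g2 g3
    all_goals first | exact g2 | omega
  have k1 : ∀ z, cls z = 1 → z ≠ p ∧ z ≠ b ∧ ∃ c, X c = z := by
    intro z hz
    simp only [cls] at hz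
    split_ifs at hz with g1 g2 g3
    all_goals first | exact ⟨g1, g2, g3⟩ | omega
  have hi : Inj true cls := by
    unfold Inj
    simp only [if_true]
    intro z w h1 h2
    exact (k0 z h1).trans (k0 w h2).symm
  refine no_bad cls α β u v true t hc hi hab ?_ huv ?_
  · intro i h1
    by_contra h2
    have h3 := hab i
    have h5 := hc (α i)
    have h6 : cls (α i) = 0 ∨ cls (α i) = 1 ∨ cls (α i) = 2 := by omega
    rcases h6 with h6 | h6 | h6
    · exact h3 ((k0 _ h6).trans (k0 _ (h1.symm.trans h6)).symm)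
    · obtain ⟨m1, m2, m3⟩ := k1 _ h6
      obtain ⟨m4, m5, m6⟩ := k1 _ (h1.symm.trans h6)
      rcases hb i m3 m1 m6 m4 with h7 | h7
      · exact m2 h7
      · exact m5 h7
    · exact h3 ((k2 _ h6).trans (k2 _ (h1.symm.trans h6)).symm)
  · intro c
    simp only [if_true]
    set c1 : Fin 5 → Bool := fun i => xor (c i) (fl cls α β i) with hc1
    have hnb : (fun i => !c1 i) = fun i => xor (!c i) (fl cls α β i) := by
      funext i
      simp only [hc1]
      cases c i <;> cases fl cls α β i <;> rfl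
    have g1 : ∀ x, X c1 = x → cls x < 3 → 6 * t < F t (κf cls α β u v) c (cls x) := by
      intro x hx hlt
      have h2 := hX c1
      rw [hx] at h2
      exact h2.trans_le (G_le_F cls α β u v t hc huv c hlt)
    have g2 : ∀ x, X (fun i => !c1 i) = x → cls x < 3 →
        6 * t < F t (κf cls α β u v) (fun i => !c i) (cls x) := by
      intro x hx hlt
      have h2 := hX (fun i => !c1 i)
      rw [hx] at h2
      rw [hnb] at h2
      exact h2.trans_le (G_le_F cls α β u v t hc huv (fun i => !c i) hlt)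
    have hp0 : cls p = 0 := by simp [cls]
    have hy : ∀ y, (∃ c, X c = y) → y ≠ p → cls y = 1 ∨ cls y = 2 := by
      intro y hy hyp
      simp only [cls]
      rw [if_neg hyp]
      by_cases hyb : y = b
      · right; rw [if_pos hyb]
      · left; rw [if_neg hyb, if_pos hy]
    have hne1 := hne c1
    rcases h c1 with h2 | h2
    · have h3 : X (fun i => !c1 i) ≠ p := fun h4 => hne1 (h2.trans h4.symm)
      have h5 := g1 p h2 (by omega)
      rw [hp0] at h5
      rcases hy _ ⟨_, rfl⟩ h3 with h6 | h6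
      · left
        have h7 := g2 _ rfl (by omega)
        rw [h6] at h7
        exact ⟨h5, h7⟩
      · right; left
        have h7 := g2 _ rfl (by omega)
        rw [h6] at h7
        exact ⟨h5, h7⟩
    · have h3 : X c1 ≠ p := fun h4 => hne1 (h4.trans h2.symm)
      have h5 := g2 p h2 (by omega)
      rw [hp0] at h5
      rcases hy _ ⟨_, rfl⟩ h3 with h6 | h6
      · right; right; left
        have h7 := g1 _ rfl (by omega)
        rw [h6] at h7
        exact ⟨h7, h5⟩
      · right; right; right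
        have h7 := g1 _ rfl (by omega)
        rw [h6] at h7
        exact ⟨h7, h5⟩

theorem core (t : ℕ) {α β : Fin 5 → ℕ} (hab : ∀ i, α i ≠ β i) {u v : Fin 5 → ℕ → ℕ}
    (huv : ∀ i j, u i j ≠ v i j) :
    ∃ c : Fin 5 → Bool, ∀ x, G t α β u v c x ≤ 6 * t := by
  by_contra hno
  push Not at hno
  choose X hX using hno
  have h1 : ∀ c, ∃ i, X c = col α β i (!c i) ∧ X (fun i => !c i) = col α β i (c i) :=
    fun c => two_bound hab (hX c) (hX _)
  have hne : ∀ c, X c ≠ X (fun i => !c i) := by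
    intro c
    obtain ⟨i, hi1, hi2⟩ := h1 c
    rw [hi1, hi2]
    exact (col_ne hab i (c i)).symm
  have hm : ∀ c c', X c = X c' ∨ X c = X (fun i => !c' i) ∨ X (fun i => !c i) = X c' ∨
      X (fun i => !c i) = X (fun i => !c' i) :=
    fun c c' => meet hab (hX c) (hX _) (hX c') (hX _)
  set c0 : Fin 5 → Bool := fun _ => true
  by_cases hA : ∀ c, X c = X c0 ∨ X (fun i => !c i) = X c0
  · exact star_case hab huv X hX hA
  by_cases hB : ∀ c, X c = X (fun i => !c0 i) ∨ X (fun i => !c i) = X (fun i => !c0 i)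
  · exact star_case hab huv X hX hB
  push Not at hA hB
  obtain ⟨c1, a1, a2⟩ := hA
  obtain ⟨c2, b1, b2⟩ := hB
  obtain ⟨r, hpr, hr1, hr2⟩ := tri_exists (hne c0) a1 a2 b1 b2 (hm c0 c1) (hm c0 c2) (hm c1 c2)
  have hqr : X (fun i => !c0 i) ≠ r := by
    intro h
    rcases hr1 with ⟨h2, h3⟩ | ⟨h2, h3⟩
    · exact hne c1 (h2.trans (h.trans h3.symm))
    · exact hne c1 (h2.trans (h.symm.trans h3.symm))
  refine triangle_case hab huv X hX (p := X c0) (q := X (fun i => !c0 i)) (r := r) ?_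
  intro c
  refine tri (y := X (fun i => !c i)) (hne c0) hpr hqr (hm c c0) ?_ ?_
  · have e1 := hm c c1
    rcases hr1 with ⟨h2, h3⟩ | ⟨h2, h3⟩
    · rw [h2, h3] at e1; exact e1
    · rw [h2, h3] at e1; tauto
  · have e2 := hm c c2
    rcases hr2 with ⟨h2, h3⟩ | ⟨h2, h3⟩
    · rw [h2, h3] at e2; exact e2
    · rw [h2, h3] at e2; tauto

end Pool.Agent.X248.Stars
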