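import Pool.Agent.X248.Stars.Defs
import Pool.Agent.X248.Stars.Main5

namespace Pool.Agent.X248.Stars
open Finset

theorem greedy {V : Type} [Fintype V] [DecidableEq V] (A : V → Finset ℕ) (cap : ℕ)
    (hne : ∀ v, (A v).Nonempty) (hV : Fintype.card V ≤ 2 * cap)
    (hf : ∀ x, (univ.filter (fun v => A v = {x})).card ≤ cap) :
    ∃ f : V → ℕ, (∀ v, f v ∈ A v) ∧ ∀ x, (univ.filter (fun v => f v = x)).card ≤ cap := by
  have key : ∀ T : Finset V, ∃ f : V → ℕ, (∀ v ∈ (univ.filter (fun v => (A v).card = 1)) ∪ T,
      f v ∈ A v) ∧ ∀ x, (((univ.filter (fun v => (A v).card = 1)) ∪ T).filter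
        (fun v => f v = x)).card ≤ cap := by
    intro T
    induction T using Finset.induction_on with
    | empty =>
      choose g hg using hne
      refine ⟨g, fun v _ => hg v, fun x => (card_le_card ?_).trans (hf x)⟩
      intro v hv
      simp only [union_empty, mem_filter, mem_univ, true_and] at hv ⊢
      obtain ⟨a, ha⟩ := card_eq_one.1 hv.1
      have := hg v
      rw [ha, mem_singleton] at this
      rw [ha, ← this, hv.2]
    | insert w T hw ih =>
      obtain ⟨f, hf1, hf2⟩ := ih
      set S := (univ.filter (fun v => (A v).card = 1)) ∪ T with hS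
      have hins : (univ.filter (fun v => (A v).card = 1)) ∪ insert w T = insert w S := by
        rw [hS, union_insert]
      rw [hins]
      by_cases hwS : w ∈ S
      · rw [insert_eq_of_mem hwS]
        exact ⟨f, hf1, hf2⟩
      · have hcard : 2 ≤ (A w).card := by
          have h1 : (A w).card ≠ 1 := by
            intro h
            apply hwS
            rw [hS]
            simp [h]
          have h2 := (hne w).card_pos
          omega
        obtain ⟨p, q, hp, hq, hpq⟩ : ∃ p q, p ∈ A w ∧ q ∈ A w ∧ p ≠ q := by
          obtain ⟨p, q, hp, hq, hpq⟩ := one_lt_card_iff.1 hcard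
          exact ⟨p, q, hp, hq, hpq⟩
        have hsum : (S.filter (fun v => f v = p)).card + (S.filter (fun v => f v = q)).card ≤
            S.card := by
          rw [← card_union_of_disjoint]
          · exact card_le_card (union_subset (filter_subset _ _) (filter_subset _ _))
          · rw [disjoint_filter]
            intro v _ h1 h2
            exact hpq (h1.symm.trans h2)
        have hSV : S.card < Fintype.card V := by
          rw [← card_univ]
          exact card_lt_card ⟨subset_univ _, fun h => hwS (h (mem_univ w))⟩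
        obtain ⟨z, hz, hzc⟩ : ∃ z, z ∈ A w ∧ (S.filter (fun v => f v = z)).card < cap := by
          by_cases h1 : (S.filter (fun v => f v = p)).card < cap
          · exact ⟨p, hp, h1⟩
          · exact ⟨q, hq, by omega⟩
        refine ⟨Function.update f w z, ?_, ?_⟩
        · intro v hv
          rcases mem_insert.1 hv with rfl | hv'
          · simpa using hz
          · have hvw : v ≠ w := by rintro rfl; exact hwS hv'
            rw [Function.update_of_ne hvw]
            exact hf1 v hv'
        · intro x
          rw [filter_insert]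
          have heq : S.filter (fun v => Function.update f w z v = x) =
              S.filter (fun v => f v = x) := by
            apply filter_congr
            intro v hv
            have hvw : v ≠ w := by rintro rfl; exact hwS hv
            rw [Function.update_of_ne hvw]
          rw [heq]
          split_ifs with hx
          · have : z = x := by simpa using hx
            subst this
            exact (card_insert_le _ _).trans hzc
          · exact hf2 x
  obtain ⟨f, h1, h2⟩ := key univ
  refine ⟨f, fun v => h1 v (mem_union_right _ (mem_univ v)), fun x => (card_le_card ?_).trans (h2 x)⟩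
  intro v hv
  rw [mem_filter] at hv ⊢
  exact ⟨mem_union_right _ (mem_univ v), hv.2⟩


def KK (r : ℕ) : ℕ := if r < 2 then 3 else if r < 5 then 2 else 0

def mm (n t : ℕ) : Fin n → ℕ := fun i => KK (n - 1 - i) * t + 1

theorem KK_kk : ∀ r : Fin 5, KK r = kk r := by decide

theorem KK_zero {r : ℕ} (h : 5 ≤ r) : KK r = 0 := by
  unfold KK
  rw [if_neg (by omega), if_neg (by omega)]

theorem sum_refl (n : ℕ) (hn : 5 ≤ n) (h : ℕ → ℕ) (h0 : ∀ r, 5 ≤ r → h r = 0) :
    ∑ i : Fin n, h (n - 1 - i) = ∑ r : Fin 5, h r := by
  rw [Fin.sum_univ_eq_sum_range (fun i => h (n - 1 - i)) n, Finset.sum_range_reflect h n,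
    Fin.sum_univ_eq_sum_range h 5]
  symm
  apply Finset.sum_subset (Finset.range_subset_range.2 hn)
  intro r _ hr
  exact h0 r (by simpa using hr)

theorem card_V (n t : ℕ) (hn : 5 ≤ n) :
    Fintype.card (Σ i : Fin n, Option (Fin (mm n t i))) = 12 * t + 2 * n := by
  rw [Fintype.card_sigma]
  have h1 : ∀ i : Fin n, Fintype.card (Option (Fin (mm n t i))) =
      (fun r => KK r * t) (n - 1 - i) + 2 := by
    intro i
    rw [Fintype.card_option, Fintype.card_fin]
    rfl
  simp only [h1]
  rw [Finset.sum_add_distrib, sum_refl n hn (fun r => KK r * t)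
    (fun r hr => by simp [KK_zero hr])]
  have h2 : ∑ r : Fin 5, (fun r => KK r * t) (r : ℕ) = 12 * t := by
    rw [← sum_kk t]
    refine Finset.sum_congr rfl fun r _ => ?_
    simp only [KK_kk]
  rw [h2]
  simp
  ring

theorem hit_of {a b p x : ℕ} (hab : a ≠ b) (h : ({a, b} : Finset ℕ) \ {p} = {x}) :
    hit a b p x := by
  have hx : x ∈ ({a, b} : Finset ℕ) \ {p} := by rw [h]; simp
  have h1 : ∀ z, z ∈ ({a, b} : Finset ℕ) → z ≠ p → z = x := by
    intro z hz hzp
    have : z ∈ ({a, b} : Finset ℕ) \ {p} := by
      rw [mem_sdiff, mem_singleton]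
      exact ⟨hz, hzp⟩
    rw [h, mem_singleton] at this
    exact this
  rw [mem_sdiff, mem_insert, mem_singleton, mem_singleton] at hx
  obtain ⟨hx1, hx2⟩ := hx
  unfold hit
  rcases hx1 with rfl | rfl
  · right
    refine ⟨rfl, ?_⟩
    by_contra hb
    exact hab (h1 b (by simp) hb).symm
  · left
    refine ⟨?_, rfl⟩
    by_contra hb
    exact hab (h1 a (by simp) hb)

theorem choosable (n t : ℕ) (hn : 5 ≤ n) : EquitablyChoosable (starUnion (mm n t)) 2 := by
  intro L hL
  have hex : ∀ v, ∃ p : ℕ × ℕ, p.1 ≠ p.2 ∧ L v = {p.1, p.2} := by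
    intro v
    obtain ⟨a, b, hab, h⟩ := card_eq_two.1 (hL v)
    exact ⟨(a, b), hab, h⟩
  choose P hP1 hP2 using hex
  let ca : ℕ → ℕ := fun i => if h : i < n then (P ⟨⟨i, h⟩, none⟩).1 else 0
  let cb : ℕ → ℕ := fun i => if h : i < n then (P ⟨⟨i, h⟩, none⟩).2 else 1
  have hcab : ∀ i, ca i ≠ cb i := by
    intro i
    simp only [ca, cb]
    split_ifs with h
    · exact hP1 _
    · omega
  let lu : ℕ → ℕ → ℕ := fun i j => if h : i < n then
    (if h' : j < mm n t ⟨i, h⟩ then (P ⟨⟨i, h⟩, some ⟨j, h'⟩⟩).1 else 0) else 0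
  let lv : ℕ → ℕ → ℕ := fun i j => if h : i < n then
    (if h' : j < mm n t ⟨i, h⟩ then (P ⟨⟨i, h⟩, some ⟨j, h'⟩⟩).2 else 1) else 1
  have hluv : ∀ i j, lu i j ≠ lv i j := by
    intro i j
    simp only [lu, lv]
    split_ifs with h h'
    · exact hP1 _
    · omega
    · omega
  have hlu : ∀ (i : Fin n) (j : Fin (mm n t i)), lu i j = (P ⟨i, some j⟩).1 := by
    intro i j
    simp only [lu]
    rw [dif_pos i.2, dif_pos j.2]
  have hlv : ∀ (i : Fin n) (j : Fin (mm n t i)), lv i j = (P ⟨i, some j⟩).2 := by
    intro i j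
    simp only [lv]
    rw [dif_pos i.2, dif_pos j.2]
  obtain ⟨c, hc⟩ := core t (α := fun r => ca (n - 1 - r)) (β := fun r => cb (n - 1 - r))
    (fun r => hcab _) (u := fun r j => lu (n - 1 - r) j) (v := fun r j => lv (n - 1 - r) j)
    (fun r j => hluv _ _)
  let cc : Fin n → ℕ := fun i => if h : n - 1 - (i : ℕ) < 5 then
    (bif c ⟨n - 1 - i, h⟩ then cb i else ca i) else ca i
  have hcc : ∀ i, cc i ∈ L ⟨i, none⟩ := by
    intro i
    rw [hP2]
    have h1 : ca i = (P ⟨i, none⟩).1 := by
      simp only [ca]
      rw [dif_pos i.2]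
    have h2 : cb i = (P ⟨i, none⟩).2 := by
      simp only [cb]
      rw [dif_pos i.2]
    simp only [cc]
    split_ifs with h
    · cases c ⟨n - 1 - i, h⟩ <;> simp [h1, h2]
    · simp [h1]
  let A : (Σ i : Fin n, Option (Fin (mm n t i))) → Finset ℕ := fun v =>
    if v.2 = none then {cc v.1} else L v \ {cc v.1}
  have hAn : ∀ i, A ⟨i, none⟩ = {cc i} := by intro i; simp [A]
  have hAs : ∀ i j, A ⟨i, some j⟩ = L ⟨i, some j⟩ \ {cc i} := by intro i j; simp [A]
  have hAne : ∀ v, (A v).Nonempty := by
    rintro ⟨i, _ | j⟩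
    · rw [hAn]; simp
    · rw [hAs, ← Finset.card_pos]
      have := Finset.le_card_sdiff {cc i} (L ⟨i, some j⟩)
      rw [hL] at this
      simp only [card_singleton] at this
      omega
  have hcard := card_V n t hn
  obtain ⟨f, hf1, hf2⟩ := greedy A (6 * t + n) hAne (by rw [hcard]; omega) (by
    intro x
    rw [Finset.card_filter, Fintype.sum_sigma]
    let g : ℕ → ℕ := fun r => if h : r < 5 then ∑ j ∈ Finset.range (kk ⟨r, h⟩ * t),
      (if hit (lu (n - 1 - r) j) (lv (n - 1 - r) j)
        (col (fun r => ca (n - 1 - r)) (fun r => cb (n - 1 - r)) ⟨r, h⟩ (c ⟨r, h⟩)) x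
        then 1 else 0) else 0
    have hg : ∑ i : Fin n, g (n - 1 - i) ≤ 6 * t := by
      rw [sum_refl n hn g (fun r hr => by simp only [g]; rw [dif_neg (by omega)])]
      refine le_trans (le_of_eq ?_) (hc x)
      unfold G
      refine Finset.sum_congr rfl fun r _ => ?_
      simp only [g]
      rw [dif_pos r.2]
    have hi : ∀ i : Fin n, (∑ o : Option (Fin (mm n t i)), if A ⟨i, o⟩ = {x} then 1 else 0) ≤
        1 + g (n - 1 - i) := by
      intro i
      rw [Fintype.sum_option, hAn]
      by_cases hx : cc i = x
      · have h0 : ∀ j, ¬ A ⟨i, some j⟩ = {x} := by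
          intro j h
          rw [hAs, hx] at h
          have : x ∈ L ⟨i, some j⟩ \ {x} := by rw [h]; simp
          simp at this
        simp only [h0, if_false, Finset.sum_const_zero]
        split_ifs <;> omega
      · have h1 : ¬ ({cc i} : Finset ℕ) = {x} := by
          intro h
          exact hx (Finset.singleton_injective h)
        rw [if_neg h1, zero_add]
        have h2 : ∀ j : Fin (mm n t i), (if A ⟨i, some j⟩ = {x} then 1 else 0) ≤
            (if hit (lu i j) (lv i j) (cc i) x then 1 else 0) := by
          intro j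
          split_ifs with h3 h4
          · exact le_rfl
          · exfalso
            apply h4
            rw [hAs, hP2] at h3
            rw [hlu, hlv]
            exact hit_of (hP1 _) h3
          · exact Nat.zero_le _
          · exact le_rfl
        refine (Finset.sum_le_sum fun j _ => h2 j).trans ?_
        have h3 : ∑ j : Fin (mm n t i), (if hit (lu i j) (lv i j) (cc i) x then 1 else 0) =
            ∑ j ∈ Finset.range (KK (n - 1 - i) * t + 1),
              (if hit (lu i j) (lv i j) (cc i) x then 1 else 0) :=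
          Fin.sum_univ_eq_sum_range (fun j => if hit (lu i j) (lv i j) (cc i) x then 1 else 0)
            (KK (n - 1 - i) * t + 1)
        rw [h3, Finset.sum_range_succ, add_comm]
        refine add_le_add ?_ ?_
        · split_ifs <;> omega
        · by_cases h5 : n - 1 - (i : ℕ) < 5
          · have h6 : KK (n - 1 - i) = kk ⟨n - 1 - i, h5⟩ := KK_kk ⟨n - 1 - i, h5⟩
            have h7 : n - 1 - (n - 1 - (i : ℕ)) = i := by omega
            simp only [g]
            rw [dif_pos h5, h6, h7]
            refine Finset.sum_le_sum fun j _ => le_of_eq ?_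
            have h8 : col (fun r : Fin 5 => ca (n - 1 - r)) (fun r : Fin 5 => cb (n - 1 - r))
                ⟨n - 1 - i, h5⟩ (c ⟨n - 1 - i, h5⟩) = cc i := by
              simp only [col, cc]
              rw [dif_pos h5, h7]
            rw [h8]
          · rw [KK_zero (by omega)]
            simp
    refine (Finset.sum_le_sum fun i _ => hi i).trans ?_
    rw [Finset.sum_add_distrib]
    simp only [Finset.sum_const, Finset.card_univ, Fintype.card_fin, smul_eq_mul, mul_one]
    omega)
  refine ⟨f, ?_, ?_, ?_⟩
  · rintro ⟨i, _ | j⟩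
    · have h := hf1 ⟨i, none⟩
      rw [hAn, mem_singleton] at h
      rw [h]
      exact hcc i
    · have h := hf1 ⟨i, some j⟩
      rw [hAs, mem_sdiff] at h
      exact h.1
  · have hns : ∀ (i : Fin n) (j : Fin (mm n t i)), f ⟨i, none⟩ ≠ f ⟨i, some j⟩ := by
      intro i j h
      have h1 := hf1 ⟨i, none⟩
      have h2 := hf1 ⟨i, some j⟩
      rw [hAn, mem_singleton] at h1
      rw [hAs, mem_sdiff, mem_singleton] at h2
      exact h2.2 (h.symm.trans h1)
    rintro ⟨i, a⟩ ⟨i', b⟩ ⟨h1, h2⟩
    simp only at h1
    subst h1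
    cases a with
    | none =>
      cases b with
      | none => simp at h2
      | some j => exact hns i j
    | some j =>
      cases b with
      | none => exact (hns i j).symm
      | some j' => simp at h2
  · intro x
    refine (hf2 x).trans ?_
    have h : (((6 * t + n : ℕ)) : ℚ) ≤
        (Fintype.card (Σ i : Fin n, Option (Fin (mm n t i))) : ℚ) / ((2 : ℕ) : ℚ) := by
      rw [hcard]
      push_cast
      linarith
    exact_mod_cast h.trans (Nat.le_ceil _)

end Pool.Agent.X248.Stars
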