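import Pool.Agent.X248.Stars.Core

namespace Pool.Agent.X248.Stars
open Finset

def fc (cls : ℕ → ℕ) (u v p : ℕ) : ℕ := if u = p then cls v else if v = p then cls u else 3

def mkc (a b : ℕ) : ℕ := if 4 * a + b = 15 then 12 else 4 * a + b

def tyOf (a b : ℕ) : ℕ := if b = 3 then 0 else if a = 0 then b else 3

theorem alw_dec0 : ∀ (a b x y : Fin 4), (a ≤ b ∧ (b.val < 3 → a ≠ b) ∧
    (x = 3 ∨ y = 3 ∨ (x = b ∧ y = a)) ∧
    ((x.val < 3 → x ≠ a) ∧ (y.val < 3 → y ≠ b))) →
    mkc x.val y.val ∈ alw false (tyOf a.val b.val) := by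
  decide

theorem alw_dec1 : ∀ (a b x y : Fin 4), (a ≤ b ∧ (b.val < 3 → a ≠ b) ∧
    (x = 3 ∨ y = 3 ∨ (x = b ∧ y = a)) ∧
    ((a = 0 → x ≠ 0) ∧ (b = 0 → y ≠ 0))) →
    mkc x.val y.val ∈ alw true (tyOf a.val b.val) := by
  decide

theorem alw_dec (m : Bool) (a b x y : Fin 4) (h1 : a ≤ b) (h2 : b.val < 3 → a ≠ b)
    (h3 : x = 3 ∨ y = 3 ∨ (x = b ∧ y = a))
    (h4 : m = false → (x.val < 3 → x ≠ a) ∧ (y.val < 3 → y ≠ b))
    (h5 : m = true → (a = 0 → x ≠ 0) ∧ (b = 0 → y ≠ 0)) :
    mkc x.val y.val ∈ alw m (tyOf a.val b.val) := by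
  cases m
  · exact alw_dec0 a b x y ⟨h1, h2, h3, h4 rfl⟩
  · exact alw_dec1 a b x y ⟨h1, h2, h3, h5 rfl⟩

theorem sel_dec : ∀ (x y : Fin 4), (x.val < 3 → sel (mkc x.val y.val) false = x.val) ∧
    (y.val < 3 → sel (mkc x.val y.val) true = y.val) := by
  decide

theorem tyOf_lt : ∀ (a b : Fin 4), tyOf a.val b.val < 4 := by decide

theorem fc_le {cls : ℕ → ℕ} (hc : ∀ z, cls z ≤ 3) (u v p : ℕ) : fc cls u v p ≤ 3 := by
  unfold fc
  split_ifs
  · exact hc _
  · exact hc _
  · exact le_rfl

def Inj (m : Bool) (cls : ℕ → ℕ) : Prop :=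
  if m then ∀ z w, cls z = 0 → cls w = 0 → z = w else ∀ z w, cls z = cls w → cls z < 3 → z = w

theorem mem_alw {m : Bool} {cls : ℕ → ℕ} (hc : ∀ z, cls z ≤ 3) (hi : Inj m cls) {A B u v : ℕ}
    (hAB : A ≠ B) (hle : cls A ≤ cls B) (hlt : cls B < 3 → cls A ≠ cls B) (huv : u ≠ v) :
    mkc (fc cls u v A) (fc cls u v B) ∈ alw m (tyOf (cls A) (cls B)) := by
  have hA := hc A
  have hB := hc B
  have hx := fc_le hc u v A
  have hy := fc_le hc u v B
  have key := alw_dec m ⟨cls A, by omega⟩ ⟨cls B, by omega⟩ ⟨fc cls u v A, by omega⟩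
    ⟨fc cls u v B, by omega⟩
  simp only [Fin.le_def, Fin.ext_iff, ne_eq, Fin.val_zero] at key
  have v3 : ((3 : Fin 4) : ℕ) = 3 := rfl
  rw [v3] at key
  refine key hle hlt ?_ ?_ ?_
  · unfold fc
    by_cases h1 : u = A
    · subst h1
      by_cases h2 : v = B
      · subst h2
        right; right
        simp [hAB]
      · right; left
        simp [hAB, h2]
    · by_cases h2 : v = A
      · subst h2
        by_cases h3 : u = B
        · subst h3
          right; right
          simp [huv]
        · right; left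
          simp [h3, hAB]
      · left
        simp [h1, h2]
  · intro hm
    subst hm
    have hi' : ∀ z w, cls z = cls w → cls z < 3 → z = w := by simpa [Inj] using hi
    constructor
    · intro h1 h2
      unfold fc at h1 h2
      split_ifs at h1 h2 with g1 g2
      · exact huv (g1.trans (hi' _ _ h2 h1).symm)
      · exact huv ((hi' _ _ h2 h1).trans g2.symm)
      · omega
    · intro h1 h2
      unfold fc at h1 h2
      split_ifs at h1 h2 with g1 g2
      · exact huv (g1.trans (hi' _ _ h2 h1).symm)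
      · exact huv ((hi' _ _ h2 h1).trans g2.symm)
      · omega
  · intro hm
    subst hm
    have hi' : ∀ z w, cls z = 0 → cls w = 0 → z = w := by simpa [Inj] using hi
    constructor
    · intro h1 h2
      unfold fc at h2
      split_ifs at h2 with g1 g2
      · exact huv (g1.trans (hi' _ _ h2 h1).symm)
      · exact huv ((hi' _ _ h2 h1).trans g2.symm)
    · intro h1 h2
      unfold fc at h2
      split_ifs at h2 with g1 g2
      · exact huv (g1.trans (hi' _ _ h2 h1).symm)
      · exact huv ((hi' _ _ h2 h1).trans g2.symm)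

section
variable (cls : ℕ → ℕ) (α β : Fin 5 → ℕ) (u v : Fin 5 → ℕ → ℕ)

def fl (i : Fin 5) : Bool := decide (cls (β i) < cls (α i))

def AA (i : Fin 5) : ℕ := bif fl cls α β i then β i else α i
def BB (i : Fin 5) : ℕ := bif fl cls α β i then α i else β i

def κf (i : Fin 5) (j : ℕ) : ℕ :=
  mkc (fc cls (u i j) (v i j) (AA cls α β i)) (fc cls (u i j) (v i j) (BB cls α β i))

theorem G_le_F (t : ℕ) (hc : ∀ z, cls z ≤ 3) (huv : ∀ i j, u i j ≠ v i j) (c : Fin 5 → Bool)
    {x : ℕ} (hx : cls x < 3) :
    G t α β u v (fun i => xor (c i) (fl cls α β i)) x ≤ F t (κf cls α β u v) c (cls x) := by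
  unfold G F
  refine Finset.sum_le_sum fun i _ => Finset.sum_le_sum fun j _ => ?_
  beta_reduce
  split_ifs with h
  · have hfc : fc cls (u i j) (v i j) (col α β i (xor (c i) (fl cls α β i))) = cls x := by
      unfold fc
      have h0 := huv i j
      unfold hit at h
      rcases h with h | h
      · rw [if_pos h.1, h.2]
      · rw [if_neg (by rw [← h.2]; exact h0), if_pos h.2, h.1]
    have hs := sel_dec ⟨fc cls (u i j) (v i j) (AA cls α β i), by
        have := fc_le hc (u i j) (v i j) (AA cls α β i); omega⟩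
      ⟨fc cls (u i j) (v i j) (BB cls α β i), by
        have := fc_le hc (u i j) (v i j) (BB cls α β i); omega⟩
    simp only at hs
    have hsel : sel (κf cls α β u v i j) (c i) = cls x := by
      unfold κf
      cases hci : c i
      · have hA : col α β i (xor (c i) (fl cls α β i)) = AA cls α β i := by
          rw [hci]; unfold col AA; cases fl cls α β i <;> rfl
        rw [hA] at hfc
        rw [hs.1 (by omega), hfc]
      · have hB : col α β i (xor (c i) (fl cls α β i)) = BB cls α β i := by
          rw [hci]; unfold col BB; cases fl cls α β i <;> rfl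
        rw [hB] at hfc
        rw [hs.2 (by omega), hfc]
    rw [hsel]
    have : Nat.beq (cls x) (cls x) = true := Nat.beq_refl _
    rw [this]
    simp
  · exact Nat.zero_le _

theorem no_bad (m : Bool) (t : ℕ) (hc : ∀ z, cls z ≤ 3) (hi : Inj m cls)
    (hab : ∀ i, α i ≠ β i) (hcl : ∀ i, cls (α i) = cls (β i) → cls (α i) = 3)
    (huv : ∀ i j, u i j ≠ v i j) : ¬ Hyp t (κf cls α β u v) m := by
  refine game m (fun i => tyOf (cls (AA cls α β i)) (cls (BB cls α β i))) ?_ t _ ?_
  · intro i
    exact tyOf_lt ⟨_, Nat.lt_succ_of_le (hc _)⟩ ⟨_, Nat.lt_succ_of_le (hc _)⟩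
  · intro i j
    unfold κf
    have h1 := hab i
    have h2 := hcl i
    have h3 := hc (α i)
    have h4 := hc (β i)
    refine mem_alw hc hi ?_ ?_ ?_ (huv i j)
    · unfold AA BB
      cases fl cls α β i
      · exact h1
      · exact h1.symm
    · unfold AA BB
      cases h : fl cls α β i
      · unfold fl at h
        simpa using h
      · unfold fl at h
        have : cls (β i) < cls (α i) := by simpa using h
        exact this.le
    · unfold AA BB
      cases fl cls α β i
      · intro h5 h6
        simp only [cond_false] at h5 h6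
        have := h2 h6
        omega
      · intro h5 h6
        simp only [cond_true] at h5 h6
        have := h2 h6.symm
        omega

end

end Pool.Agent.X248.Stars
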