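import Pool.Agent.X248.Stars.Sound

namespace Pool.Agent.X248.Stars
open Finset

def hasKey (l : List (ℕ × ℕ)) (k : ℕ) : Bool := l.any fun x => Nat.beq x.1 k

def keysOK (l : List (ℕ × ℕ)) : Bool :=
  (List.range 1024).all fun k =>
    bif (Nat.ble (k / 256) (k / 64 % 4) && Nat.ble (k / 16 % 4) (k / 4 % 4) &&
      Nat.ble (k / 4 % 4) (k % 4)) then hasKey l k else true

theorem keys0 : keysOK tab0 = true := by decide +kernel
theorem keys1 : keysOK tab1 = true := by decide +kernel

theorem exists_code (m : Bool) {a b c d e : ℕ} (ha : a < 4) (hb : b < 4) (hc : c < 4) (hd : d < 4)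
    (he : e < 4) (h1 : a ≤ b) (h2 : c ≤ d) (h3 : d ≤ e) :
    ∃ code, run m a b c d e 20 [] code ≠ 0 := by
  have key : ∀ l : List (ℕ × ℕ), l.all (entryOK m) = true → keysOK l = true →
      ∃ code, run m a b c d e 20 [] code ≠ 0 := by
    intro l hl hk
    unfold keysOK at hk
    rw [List.all_eq_true] at hk
    have hk' := hk (256 * a + 64 * b + 16 * c + 4 * d + e) (List.mem_range.2 (by omega))
    have e1 : (256 * a + 64 * b + 16 * c + 4 * d + e) / 256 = a := by omega
    have e2 : (256 * a + 64 * b + 16 * c + 4 * d + e) / 64 % 4 = b := by omega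
    have e3 : (256 * a + 64 * b + 16 * c + 4 * d + e) / 16 % 4 = c := by omega
    have e4 : (256 * a + 64 * b + 16 * c + 4 * d + e) / 4 % 4 = d := by omega
    have e5 : (256 * a + 64 * b + 16 * c + 4 * d + e) % 4 = e := by omega
    rw [e1, e2, e3, e4, e5, Nat.ble_eq_true_of_le h1, Nat.ble_eq_true_of_le h2,
      Nat.ble_eq_true_of_le h3] at hk'
    simp only [Bool.and_self, cond_true] at hk'
    unfold hasKey at hk'
    rw [List.any_eq_true] at hk'
    obtain ⟨x, hx, hxe⟩ := hk'
    have hx1 : x.1 = 256 * a + 64 * b + 16 * c + 4 * d + e := Nat.eq_of_beq_eq_true hxe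
    rw [List.all_eq_true] at hl
    have hr := hl x hx
    unfold entryOK at hr
    rw [hx1, e1, e2, e3, e4, e5] at hr
    refine ⟨x.2, ?_⟩
    have : 0 < run m a b c d e 20 [] x.2 := by simpa [Nat.blt_eq] using hr
    omega
  cases m with
  | false => exact key tab0 tab0_ok keys0
  | true => exact key tab1 tab1_ok keys1

def Good (m : Bool) (ty : Fin 5 → ℕ) : Prop :=
  ∀ (t : ℕ) (κ : Fin 5 → ℕ → ℕ), (∀ i j, κ i j ∈ alw m (ty i)) → ¬ Hyp t κ m

theorem good_sorted (m : Bool) {a b c d e : ℕ} (ha : a < 4) (hb : b < 4) (hc : c < 4) (hd : d < 4)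
    (he : e < 4) (h1 : a ≤ b) (h2 : c ≤ d) (h3 : d ≤ e) : Good m ![a, b, c, d, e] := by
  intro t κ hκ H
  obtain ⟨code, hcode⟩ := exists_code m ha hb hc hd he h1 h2 h3
  exact run_sound t κ (ty := ![a, b, c, d, e]) hκ H 20 [] code hcode (by simp)

theorem F_perm (t : ℕ) (κ : Fin 5 → ℕ → ℕ) (π : Equiv.Perm (Fin 5)) (hπ : ∀ i, kk (π i) = kk i)
    (c : Fin 5 → Bool) (x : ℕ) :
    F t (fun i => κ (π i)) (fun i => c (π i)) x = F t κ c x := by
  unfold F
  rw [← Equiv.sum_comp π (fun i => ∑ j ∈ Finset.range (kk i * t),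
    (bif Nat.beq (sel (κ i j) (c i)) x then 1 else 0))]
  simp only [hπ]

theorem Hyp_perm {t : ℕ} {κ : Fin 5 → ℕ → ℕ} {m : Bool} (π : Equiv.Perm (Fin 5))
    (hπ : ∀ i, kk (π i) = kk i) (H : Hyp t κ m) : Hyp t (fun i => κ (π i)) m := by
  intro c
  have e1 : ∀ x, F t (fun i => κ (π i)) c x = F t κ (fun i => c (π.symm i)) x := by
    intro x
    rw [← F_perm t κ π hπ]
    simp
  have e2 : ∀ x, F t (fun i => κ (π i)) (fun i => !c i) x =
      F t κ (fun i => !(c (π.symm i))) x := by
    intro x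
    rw [← F_perm t κ π hπ]
    simp
  have := H (fun i => c (π.symm i))
  simp only [e1, e2]
  exact this

theorem Good_perm {m : Bool} {ty : Fin 5 → ℕ} (π : Equiv.Perm (Fin 5))
    (hπ : ∀ i, kk (π i) = kk i) (h : Good m (fun i => ty (π i))) : Good m ty := by
  intro t κ hκ H
  exact h t (fun i => κ (π i)) (fun i j => hκ (π i) j) (Hyp_perm π hπ H)

theorem s01 {m : Bool} {a b c d e : ℕ} (h : Good m ![b, a, c, d, e]) :
    Good m ![a, b, c, d, e] := by
  refine Good_perm (Equiv.swap 0 1) (by decide) ?_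
  convert h using 1
  funext i
  fin_cases i <;> rfl

theorem s23 {m : Bool} {a b c d e : ℕ} (h : Good m ![a, b, d, c, e]) :
    Good m ![a, b, c, d, e] := by
  refine Good_perm (Equiv.swap 2 3) (by decide) ?_
  convert h using 1
  funext i
  fin_cases i <;> rfl

theorem s34 {m : Bool} {a b c d e : ℕ} (h : Good m ![a, b, c, e, d]) :
    Good m ![a, b, c, d, e] := by
  refine Good_perm (Equiv.swap 3 4) (by decide) ?_
  convert h using 1
  funext i
  fin_cases i <;> rfl

theorem good_vec (m : Bool) {a b c d e : ℕ} (ha : a < 4) (hb : b < 4) (hc : c < 4) (hd : d < 4)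
    (he : e < 4) : Good m ![a, b, c, d, e] := by
  have base : ∀ a b, a < 4 → b < 4 → a ≤ b → Good m ![a, b, c, d, e] := by
    intro a b ha hb hab
    rcases le_total c d with h1 | h1
    · rcases le_total d e with h2 | h2
      · exact good_sorted m ha hb hc hd he hab h1 h2
      · rcases le_total c e with h3 | h3
        · exact s34 (good_sorted m ha hb hc he hd hab h3 h2)
        · exact s34 (s23 (good_sorted m ha hb he hc hd hab h3 h1))
    · rcases le_total c e with h2 | h2
      · exact s23 (good_sorted m ha hb hd hc he hab h1 h2)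
      · rcases le_total d e with h3 | h3
        · exact s23 (s34 (good_sorted m ha hb hd he hc hab h3 h2))
        · exact s23 (s34 (s23 (good_sorted m ha hb he hd hc hab h3 h1)))
  rcases le_total a b with h | h
  · exact base a b ha hb h
  · exact s01 (base b a hb ha h)

theorem game (m : Bool) (ty : Fin 5 → ℕ) (hty : ∀ i, ty i < 4) (t : ℕ) (κ : Fin 5 → ℕ → ℕ)
    (hκ : ∀ i j, κ i j ∈ alw m (ty i)) : ¬ Hyp t κ m := by
  have h := good_vec m (hty 0) (hty 1) (hty 2) (hty 3) (hty 4)
  have e : ![ty 0, ty 1, ty 2, ty 3, ty 4] = ty := by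
    funext i
    fin_cases i <;> rfl
  rw [e] at h
  exact h t κ hκ

end Pool.Agent.X248.Stars
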