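import Pool.Agent.X248.Stars.Game

namespace Pool.Agent.X248.Stars
open Finset

theorem mx_le {f : ℕ → ℕ} {l : List ℕ} {a : ℕ} (h : a ∈ l) : f a ≤ mx f l := by
  induction l with
  | nil => simp at h
  | cons b l ih =>
    simp only [mx]
    rcases List.mem_cons.1 h with rfl | h
    · cases hb : Nat.ble (f a) (mx f l) with
      | true => simpa using Nat.le_of_ble_eq_true hb
      | false => simp
    · have h1 := ih h
      cases hb : Nat.ble (f b) (mx f l) with
      | true => simpa using h1
      | false =>
        have h2 : ¬ f b ≤ mx f l := by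
          intro hc
          rw [Nat.ble_eq_true_of_le hc] at hb
          exact Bool.noConfusion hb
        simp only [cond_false]
        omega

variable (t : ℕ) (κ : Fin 5 → ℕ → ℕ)

def WF : List (ℕ × ℕ) → ℕ → ℕ
  | [], _ => 0
  | cx :: p, code => (code % 64) * F t κ (cf cx.1) cx.2 + WF p (code / 64)

theorem WF_eq (p : List (ℕ × ℕ)) : ∀ code, WF t κ p code =
    ∑ i : Fin 5, ∑ j ∈ Finset.range (kk i * t), wsum (κ i j) i p code := by
  induction p with
  | nil => intro code; simp [WF, wsum]
  | cons cx p ih =>
    intro code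
    simp only [WF, wsum, Finset.sum_add_distrib, ih, F, Finset.mul_sum]
    congr 1
    refine Finset.sum_congr rfl fun i _ => Finset.sum_congr rfl fun j _ => ?_
    simp only [cf]
    cases Nat.beq (sel (κ i j) (cx.1.testBit ↑i)) cx.2 <;> simp

theorem WF_ge (p : List (ℕ × ℕ)) : ∀ code, (∀ cx ∈ p, 6 * t < F t κ (cf cx.1) cx.2) →
    (6 * t + 1) * tot p code ≤ WF t κ p code := by
  induction p with
  | nil => intro code _; simp [WF, tot]
  | cons cx p ih =>
    intro code h
    have h1 := ih (code / 64) fun y hy => h y (List.mem_cons_of_mem _ hy)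
    have h2 := h cx List.mem_cons_self
    have h3 : (code % 64) * (6 * t + 1) ≤ (code % 64) * F t κ (cf cx.1) cx.2 :=
      Nat.mul_le_mul_left _ h2
    simp only [WF, tot]
    nlinarith

theorem leaf_sound {m : Bool} {ty : Fin 5 → ℕ} (hκ : ∀ i j, κ i j ∈ alw m (ty i))
    {p : List (ℕ × ℕ)} {code : ℕ}
    (h : leafOK m (ty 0) (ty 1) (ty 2) (ty 3) (ty 4) p code = true) :
    ¬ ∀ cx ∈ p, 6 * t < F t κ (cf cx.1) cx.2 := by
  intro hp
  have h1 := WF_ge t κ p code hp
  rw [WF_eq] at h1
  simp only [leafOK, Bool.and_eq_true] at h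
  obtain ⟨ha, hb⟩ := h
  have ha' := Nat.le_of_ble_eq_true ha
  have hb' : 0 < tot p code := by simpa [Nat.blt_eq] using hb
  have hs : ∀ i : Fin 5, ∑ j ∈ Finset.range (kk i * t), wsum (κ i j) i p code ≤
      (kk i * t) * mx (fun φ => wsum φ i p code) (alw m (ty i)) := by
    intro i
    refine (Finset.sum_le_card_nsmul _ _ (mx (fun φ => wsum φ i p code) (alw m (ty i)))
      fun j _ => ?_).trans ?_
    · exact mx_le (f := fun φ => wsum φ i p code) (hκ i j)
    · simp
  have hs0 := hs 0
  have hs1 := hs 1
  have hs2 := hs 2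
  have hs3 := hs 3
  have hs4 := hs 4
  rw [Fin.sum_univ_five] at h1
  have e0 : kk 0 = 3 := rfl
  have e1 : kk 1 = 3 := rfl
  have e2 : kk 2 = 2 := rfl
  have e3 : kk 3 = 2 := rfl
  have e4 : kk 4 = 2 := rfl
  have c0 : ((0 : Fin 5) : ℕ) = 0 := rfl
  have c1 : ((1 : Fin 5) : ℕ) = 1 := rfl
  have c2 : ((2 : Fin 5) : ℕ) = 2 := rfl
  have c3 : ((3 : Fin 5) : ℕ) = 3 := rfl
  have c4 : ((4 : Fin 5) : ℕ) = 4 := rfl
  rw [c0, e0] at hs0
  rw [c1, e1] at hs1
  rw [c2, e2] at hs2
  rw [c3, e3] at hs3
  rw [c4, e4] at hs4
  rw [c0, c1, c2, c3, c4, e0, e1, e2, e3, e4] at h1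
  have hm := Nat.mul_le_mul_left t ha'
  generalize mx (fun φ => wsum φ 0 p code) (alw m (ty 0)) = a0 at *
  generalize mx (fun φ => wsum φ 1 p code) (alw m (ty 1)) = a1 at *
  generalize mx (fun φ => wsum φ 2 p code) (alw m (ty 2)) = a2 at *
  generalize mx (fun φ => wsum φ 3 p code) (alw m (ty 3)) = a3 at *
  generalize mx (fun φ => wsum φ 4 p code) (alw m (ty 4)) = a4 at *
  nlinarith

/-- the hypothesis of the game -/
def Hyp (m : Bool) : Prop :=
  ∀ c : Fin 5 → Bool,
    if m then
      (6 * t < F t κ c 0 ∧ 6 * t < F t κ (fun i => !c i) 1) ∨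
      (6 * t < F t κ c 0 ∧ 6 * t < F t κ (fun i => !c i) 2) ∨
      (6 * t < F t κ c 1 ∧ 6 * t < F t κ (fun i => !c i) 0) ∨
      (6 * t < F t κ c 2 ∧ 6 * t < F t κ (fun i => !c i) 0)
    else 6 * t < F t κ c 0 ∨ 6 * t < F t κ c 1 ∨ 6 * t < F t κ c 2

theorem cf_xor (c : ℕ) : cf (c ^^^ 31) = fun i => !cf c i := by
  funext i
  simp only [cf, Nat.testBit_xor]
  have : Nat.testBit 31 i = true := by
    revert i; decide
  rw [this]
  cases c.testBit i <;> rfl

theorem run_sound {m : Bool} {ty : Fin 5 → ℕ} (hκ : ∀ i j, κ i j ∈ alw m (ty i))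
    (H : Hyp t κ m) : ∀ (f : ℕ) (p : List (ℕ × ℕ)) (code : ℕ),
    run m (ty 0) (ty 1) (ty 2) (ty 3) (ty 4) f p code ≠ 0 →
    ¬ ∀ cx ∈ p, 6 * t < F t κ (cf cx.1) cx.2 := by
  intro f
  induction f with
  | zero => intro p code h; simp [run] at h
  | succ f ih =>
    intro p code h hp
    unfold run at h
    cases hb : Nat.beq (code % 64) 0 with
    | true =>
      rw [hb] at h
      simp only [cond_true] at h
      cases hl : leafOK m (ty 0) (ty 1) (ty 2) (ty 3) (ty 4) p (code / 64) with
      | true => exact leaf_sound t κ hκ hl hp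
      | false => rw [hl] at h; simp at h
    | false =>
      rw [hb] at h
      simp only [cond_false] at h
      generalize code % 64 - 1 = q at h
      cases m with
      | false =>
        simp only [cond_false] at h
        have H' := H (cf q)
        simp only [Bool.false_eq_true, if_false] at H'
        have key : ∀ x, run false (ty 0) (ty 1) (ty 2) (ty 3) (ty 4) f ((q, x) :: p) x ≠ x →
          True := fun _ _ => trivial
        cases h1 : run false (ty 0) (ty 1) (ty 2) (ty 3) (ty 4) f ((q, 0) :: p) (code / 64) with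
        | zero => rw [h1] at h; simp at h
        | succ r =>
          rw [h1] at h
          simp only at h
          cases h2 : run false (ty 0) (ty 1) (ty 2) (ty 3) (ty 4) f ((q, 1) :: p) r with
          | zero => rw [h2] at h; simp at h
          | succ r2 =>
            rw [h2] at h
            simp only at h
            have a0 := ih ((q, 0) :: p) (code / 64) (by rw [h1]; simp)
            have a1 := ih ((q, 1) :: p) r (by rw [h2]; simp)
            have a2 := ih ((q, 2) :: p) r2 h
            have ext : ∀ x, 6 * t < F t κ (cf q) x →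
                ∀ cx ∈ ((q, x) :: p), 6 * t < F t κ (cf cx.1) cx.2 := by
              intro x hx cx hcx
              rcases List.mem_cons.1 hcx with rfl | hcx
              · exact hx
              · exact hp cx hcx
            rcases H' with h0 | h0 | h0
            · exact a0 (ext _ h0)
            · exact a1 (ext _ h0)
            · exact a2 (ext _ h0)
      | true =>
        simp only [cond_true] at h
        have H' := H (cf q)
        simp only [if_true] at H'
        rw [← cf_xor] at H'
        cases h1 : run true (ty 0) (ty 1) (ty 2) (ty 3) (ty 4) f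
            ((q ^^^ 31, 1) :: (q, 0) :: p) (code / 64) with
        | zero => rw [h1] at h; simp at h
        | succ r =>
          rw [h1] at h
          simp only at h
          cases h2 : run true (ty 0) (ty 1) (ty 2) (ty 3) (ty 4) f
              ((q ^^^ 31, 2) :: (q, 0) :: p) r with
          | zero => rw [h2] at h; simp at h
          | succ r2 =>
            rw [h2] at h
            simp only at h
            cases h3 : run true (ty 0) (ty 1) (ty 2) (ty 3) (ty 4) f
                ((q ^^^ 31, 0) :: (q, 1) :: p) r2 with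
            | zero => rw [h3] at h; simp at h
            | succ r3 =>
              rw [h3] at h
              simp only at h
              have a0 := ih _ (code / 64) (by rw [h1]; simp)
              have a1 := ih _ r (by rw [h2]; simp)
              have a2 := ih _ r2 (by rw [h3]; simp)
              have a3 := ih _ r3 h
              have ext : ∀ x y, 6 * t < F t κ (cf q) x ∧ 6 * t < F t κ (cf (q ^^^ 31)) y →
                  ∀ cx ∈ ((q ^^^ 31, y) :: (q, x) :: p), 6 * t < F t κ (cf cx.1) cx.2 := by
                intro x y hxy cx hcx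
                rcases List.mem_cons.1 hcx with rfl | hcx
                · exact hxy.2
                · rcases List.mem_cons.1 hcx with rfl | hcx
                  · exact hxy.1
                  · exact hp cx hcx
              rcases H' with h0 | h0 | h0 | h0
              · exact a0 (ext _ _ h0)
              · exact a1 (ext _ _ h0)
              · exact a2 (ext _ _ h0)
              · exact a3 (ext _ _ h0)

end Pool.Agent.X248.Stars
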